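import Pool.Agent.U80.PT.Root

/-!
# Root numbers over number fields generated by square roots of natural numbers `1` modulo `8`

The method is that of helper80 (`U80/PT`).
-/

set_option autoImplicit false
set_option linter.all false

open IsDedekindDomain NumberField
open scoped Classical

namespace Pool.Agent.U880.RN

open Pool.Agent.N922.PX (Fixed LocalRootNumbers rootNumber GoodReduction)
open Pool.Agent.N922.PQ (IsPr Ov exists_below one_mem_of)
open Pool.Agent.U80.PT (gal_of not_fixed_odd not_fixed_two E2 good_of val_lt)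

variable {M : Type} [Field M] [NumberField M] {n : ℕ} {r : Fin n → M} {m : Fin n → ℕ}

/-- automorphisms that agree on generators -/
theorem aut_ext (hgen : IntermediateField.adjoin ℚ (Set.range r) = ⊤) {σ τ : M ≃ₐ[ℚ] M}
    (h : ∀ i, σ (r i) = τ (r i)) : σ = τ := by
  refine AlgEquiv.ext fun x => ?_
  have hx : x ∈ IntermediateField.adjoin ℚ (Set.range r) := by
    rw [hgen]
    exact IntermediateField.mem_top
  induction hx using IntermediateField.adjoin_induction with
  | mem y hy =>
    obtain ⟨i, rfl⟩ := hy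
    exact h i
  | algebraMap c => rw [σ.commutes, τ.commutes]
  | add a b _ _ ha hb => rw [map_add, map_add, ha, hb]
  | inv a _ ha => rw [map_inv₀, map_inv₀, ha]
  | mul a b _ _ ha hb => rw [map_mul, map_mul, ha, hb]

theorem sgn {x : M} {d : ℕ} (h : x ^ 2 = (d : M)) (σ : M ≃ₐ[ℚ] M) : σ x = x ∨ σ x = -x := by
  have h1 : (σ x) ^ 2 = x ^ 2 := by rw [← map_pow, h, map_natCast]
  exact sq_eq_sq_iff_eq_or_eq_neg.1 h1

theorem galois (hr : ∀ i, r i ^ 2 = (m i : M))
    (hgen : IntermediateField.adjoin ℚ (Set.range r) = ⊤) : IsGalois ℚ M := by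
  refine gal_of (S := Set.range r) ?_ hgen
  rintro _ ⟨i, rfl⟩
  exact ⟨(m i : ℚ), by rw [hr, map_natCast]⟩

/-- the degree is a power of two -/
theorem deg_pow (hr : ∀ i, r i ^ 2 = (m i : M))
    (hgen : IntermediateField.adjoin ℚ (Set.range r) = ⊤) :
    ∃ k, Module.finrank ℚ M = 2 ^ k := by
  haveI := galois hr hgen
  have hp : IsPGroup 2 (M ≃ₐ[ℚ] M) := by
    intro σ
    refine ⟨1, ?_⟩
    rw [pow_one, sq]
    refine aut_ext hgen fun i => ?_
    show σ (σ (r i)) = r i
    rcases sgn (hr i) σ with h | h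
    · rw [h, h]
    · rw [h, map_neg, h, neg_neg]
  obtain ⟨k, hk⟩ := IsPGroup.iff_card.1 hp
  exact ⟨k, by rw [← hk, IsGalois.card_aut_eq_finrank]⟩

/-- no stable prime outside the radicands -/
theorem no_fixed (hr : ∀ i, r i ^ 2 = (m i : M)) (h8 : ∀ i, m i % 8 = 1)
    (hgen : IntermediateField.adjoin ℚ (Set.range r) = ⊤) (h4 : 4 ≤ Module.finrank ℚ M)
    {v : HeightOneSpectrum (𝓞 M)} (hv : ∀ i, ¬ Ov (m i : ℤ) v) : ¬ Fixed v := by
  intro hf
  haveI := galois hr hgen
  obtain ⟨p0, hp0, hpv⟩ := exists_below v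
  obtain ⟨p, rfl⟩ : ∃ p : ℕ, p0 = p := ⟨p0.toNat, (Int.toNat_of_nonneg hp0.1.le).symm⟩
  have hp : p.Prime := Nat.prime_iff_prime_int.2 hp0.2
  have hpd : ∀ i, ¬ p ∣ m i := by
    intro i h
    apply hv i
    obtain ⟨k, hk⟩ := h
    unfold Pool.Agent.N922.PQ.Ov at hpv ⊢
    rw [hk]
    push_cast at hpv ⊢
    exact Ideal.mul_mem_right _ _ hpv
  have h0 : ∀ i, r i ≠ 0 := by
    intro i h
    have h1 := hr i
    rw [h, sq, mul_zero] at h1
    have h2 : m i = 0 := by exact_mod_cast h1.symm
    have := h8 i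
    omega
  -- the automorphisms fix the square roots of squares
  have hfix : ∀ (d : ℕ) (x : M), x ^ 2 = (d : M) → d % 8 = 1 → ¬ p ∣ d →
      (p ≠ 2 → IsSquare (d : ZMod p)) → ∀ σ : M ≃ₐ[ℚ] M, σ x = x := by
    intro d x hx hd8 hpd hsq σ
    rcases sgn hx σ with h | h
    · exact h
    · exfalso
      by_cases h2 : p = 2
      · subst h2
        exact not_fixed_two hpv hx hd8 σ h hf
      · exact not_fixed_odd hp h2 hpv hx hpd (hsq h2) σ h hf
  have hcard : Nat.card (M ≃ₐ[ℚ] M) ≤ 2 := by
    by_cases hall : p = 2 ∨ ∀ i, IsSquare ((m i : ℕ) : ZMod p)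
    · have h1 : ∀ σ : M ≃ₐ[ℚ] M, σ = 1 := fun σ => aut_ext hgen fun i =>
        (hfix (m i) (r i) (hr i) (h8 i) (hpd i) (fun h2 => hall.elim (fun h => absurd h h2)
          fun h => h i) σ)
      have h2 : Subsingleton (M ≃ₐ[ℚ] M) := ⟨fun σ τ => by rw [h1 σ, h1 τ]⟩
      rw [Nat.card_of_subsingleton (1 : M ≃ₐ[ℚ] M)]
      norm_num
    · push Not at hall
      obtain ⟨h2, i0, hi0⟩ := hall
      haveI : Fact p.Prime := ⟨hp⟩
      have hn0 : ∀ i, ((m i : ℕ) : ZMod p) ≠ 0 := fun i h =>
        hpd i ((ZMod.natCast_eq_zero_iff _ _).1 h)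
      have hinj : Function.Injective
          (fun σ : M ≃ₐ[ℚ] M => (decide (σ (r i0) = r i0) : Bool)) := by
        intro σ τ hst
        have hst' : σ (r i0) = τ (r i0) := by
          have e : (σ (r i0) = r i0) ↔ (τ (r i0) = r i0) := by
            simpa using hst
          rcases sgn (hr i0) σ with h | h
          · rw [h, e.1 h]
          · rcases sgn (hr i0) τ with h' | h'
            · rw [e.2 h', h']
            · rw [h, h']
        refine aut_ext hgen fun j => ?_
        by_cases hj : IsSquare ((m j : ℕ) : ZMod p)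
        · rw [hfix (m j) (r j) (hr j) (h8 j) (hpd j) (fun _ => hj) σ,
            hfix (m j) (r j) (hr j) (h8 j) (hpd j) (fun _ => hj) τ]
        · have hmul : ∀ ρ : M ≃ₐ[ℚ] M, ρ (r i0 * r j) = r i0 * r j := by
            refine hfix (m i0 * m j) (r i0 * r j) ?_ ?_ ?_ fun _ => ?_
            · rw [mul_pow, hr, hr]
              push_cast
              ring
            · rw [Nat.mul_mod, h8, h8]
            · intro h
              rcases hp.dvd_mul.1 h with h | h
              · exact hpd i0 h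
              · exact hpd j h
            · push_cast
              have e1 := (quadraticChar_neg_one_iff_not_isSquare (F := ZMod p)).2 hi0
              have e2 := (quadraticChar_neg_one_iff_not_isSquare (F := ZMod p)).2 hj
              rw [← quadraticChar_one_iff_isSquare (mul_ne_zero (hn0 i0) (hn0 j)), map_mul, e1, e2]
              norm_num
          have e1 := hmul σ
          have e2 := hmul τ
          rw [map_mul] at e1 e2
          rw [← hst'] at e2
          have h5 : σ (r i0) ≠ 0 := by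
            intro h
            exact h0 i0 ((map_eq_zero σ).1 h)
          exact mul_left_cancel₀ h5 (e1.trans e2.symm)
      have := Nat.card_le_card_of_injective _ hinj
      rwa [Nat.card_eq_fintype_card (α := Bool), Fintype.card_bool] at this
  rw [IsGalois.card_aut_eq_finrank] at hcard
  omega

/-- **the root number is `1`** -/
theorem root_one (hr : ∀ i, r i ^ 2 = (m i : M)) (h8 : ∀ i, m i % 8 = 1)
    (hgen : IntermediateField.adjoin ℚ (Set.range r) = ⊤) (h4 : 4 ≤ Module.finrank ℚ M)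
    {A B : ℤ} (h0 : 16 * B ^ 2 * (A ^ 2 - 4 * B) ≠ 0)
    (hq : ∀ i, IsCoprime (m i : ℤ) (16 * B ^ 2 * (A ^ 2 - 4 * B)))
    {w : HeightOneSpectrum (𝓞 M) → ℤ} (hw : LocalRootNumbers M (E2 A B ℚ) w) :
    {v | w v ≠ 1}.Finite ∧ rootNumber M w = 1 := by
  haveI := galois hr hgen
  obtain ⟨k, hk⟩ := deg_pow hr hgen
  have hk2 : 2 ≤ k := by
    by_contra hlt
    have h1 : k ≤ 1 := by omega
    have h2 : 2 ^ k ≤ 2 ^ 1 := Nat.pow_le_pow_right (by norm_num) h1
    omega
  have hfin : {v | w v ≠ 1}.Finite := by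
    refine ((Pool.Agent.N878.PX.t_rd M).2.1 _ h0).subset fun v hv h => hv ?_
    refine hw.good v (good_of fun h1 => ?_)
    rw [← val_lt, h] at h1
    exact lt_irrefl _ h1
  refine ⟨hfin, ?_⟩
  have hprod := Pool.Agent.N385.PX.PR M k hk w hw.sign hfin hw.conj
  have hempty : {v | w v = -1 ∧ Fixed v} = ∅ := by
    rw [Set.eq_empty_iff_forall_notMem]
    rintro v ⟨hv1, hv2⟩
    by_cases h : ∃ i, Ov (m i : ℤ) v
    · obtain ⟨i, hov⟩ := h
      have h1 := hw.good v (good_of fun h2 => one_mem_of (hq i) hov h2)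
      rw [hv1] at h1
      norm_num at h1
    · push Not at h
      exact no_fixed hr h8 hgen h4 h hv2
  have hie := Pool.Agent.N897.PX.ie M k hk hk2
  unfold Pool.Agent.N922.PX.rootNumber
  rw [hprod, hempty, Set.ncard_empty, pow_zero, mul_one]
  exact hie.neg_one_pow

end Pool.Agent.U880.RN
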